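import Pool.Agent.H60.VM.ClassTwo

set_option autoImplicit false

/-!
# Leibniz algebras of class two are not rigid
-/

namespace Pool.Agent.Results.MP_dfe2cd_al.ClassTwo

/-- the space `ℂ^n` -/
abbrev Vec (n : ℕ) : Type := Fin n → ℂ

/-- bilinear products on `ℂ^n` -/
abbrev Alg (n : ℕ) : Type := Vec n →ₗ[ℂ] Vec n →ₗ[ℂ] Vec n

/-- the product `xy` of the algebra `μ` -/
def mul {n : ℕ} (μ : Alg n) (x y : Vec n) : Vec n := μ x y

/-- the Leibniz identity `(xy)z = (xz)y + x(yz)` -/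
def Leib {n : ℕ} (μ : Alg n) : Prop :=
  ∀ x y z : Vec n, mul μ (mul μ x y) z = mul μ (mul μ x z) y + mul μ x (mul μ y z)

/-- isomorphism of products -/
def Iso {n : ℕ} (μ ν : Alg n) : Prop :=
  ∃ g : Vec n ≃ₗ[ℂ] Vec n, ∀ x y : Vec n, mul ν (g x) (g y) = g (mul μ x y)

/-- the structure constants of a product -/
noncomputable def sc {n : ℕ} (ν : Alg n) : Fin n × Fin n × Fin n → ℂ :=
  fun t => mul ν (Pi.single t.1 1) (Pi.single t.2.1 1) t.2.2

/-- the orbit of `μ` is Zariski-open in the variety of Leibniz products: its complement is the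
common zero set (in the variety) of a set `P` of polynomials in the structure constants -/
def Rigid {n : ℕ} (μ : Alg n) : Prop :=
  ∃ P : Set (MvPolynomial (Fin n × Fin n × Fin n) ℂ),
    ∀ ν : Alg n, Leib ν → (¬ Iso μ ν ↔ ∀ p ∈ P, MvPolynomial.eval (sc ν) p = 0)

/-- `A^3 = 0` -/
def CubeZero {n : ℕ} (μ : Alg n) : Prop := ∀ x y z : Vec n, mul μ (mul μ x y) z = 0

/-- For `n ≥ 2` no Leibniz product on `ℂ^n` with `A^3 = 0` is rigid. -/
theorem result (n : ℕ) (hn : 2 ≤ n) (μ : Alg n) (hL : Leib μ) (h3 : CubeZero μ) : ¬ Rigid μ :=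
  H60VM.class_two hn hL h3

end Pool.Agent.Results.MP_dfe2cd_al.ClassTwo
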