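import Pool.Agent.H60.VM.Metric

set_option autoImplicit false

/-!
# A deformation criterion; nilpotent Leibniz algebras of metric type are not rigid
-/

namespace Pool.Agent.Results.MP_dfe2cd_al.MetricType

/-- the space `ℂ^n` -/
abbrev Vec (n : ℕ) : Type := Fin n → ℂ

/-- bilinear products on `ℂ^n` -/
abbrev Alg (n : ℕ) : Type := Vec n →ₗ[ℂ] Vec n →ₗ[ℂ] Vec n

/-- the product `xy` of the algebra `μ` -/
def mul {n : ℕ} (μ : Alg n) (x y : Vec n) : Vec n := μ x y

/-- the Leibniz identity `(xy)z = (xz)y + x(yz)` -/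
def Leib {n : ℕ} (μ : Alg n) : Prop :=
  ∀ x y z : Vec n, mul μ (mul μ x y) z = mul μ (mul μ x z) y + mul μ x (mul μ y z)

/-- all left normed products of some fixed length vanish -/
def Nilp {n : ℕ} (μ : Alg n) : Prop :=
  ∃ m : ℕ, ∀ x y : ℕ → Vec n,
    y 0 = x 0 → (∀ i : ℕ, y (i + 1) = mul μ (y i) (x (i + 1))) → y m = 0

/-- isomorphism of products -/
def Iso {n : ℕ} (μ ν : Alg n) : Prop :=
  ∃ g : Vec n ≃ₗ[ℂ] Vec n, ∀ x y : Vec n, mul ν (g x) (g y) = g (mul μ x y)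

/-- the structure constants of a product -/
noncomputable def sc {n : ℕ} (ν : Alg n) : Fin n × Fin n × Fin n → ℂ :=
  fun t => mul ν (Pi.single t.1 1) (Pi.single t.2.1 1) t.2.2

/-- the orbit of `μ` is Zariski-open in the variety of Leibniz products: its complement is the
common zero set (in the variety) of a set `P` of polynomials in the structure constants -/
def Rigid {n : ℕ} (μ : Alg n) : Prop :=
  ∃ P : Set (MvPolynomial (Fin n × Fin n × Fin n) ℂ),
    ∀ ν : Alg n, Leib ν → (¬ Iso μ ν ↔ ∀ p ∈ P, MvPolynomial.eval (sc ν) p = 0)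

/-- the line `μ + tθ` of products -/
noncomputable def line {n : ℕ} (μ θ : Alg n) (t : ℂ) : Alg n := μ + t • θ

/-- a line of Leibniz products through `μ`, not nilpotent away from `μ` -/
def Deforms {n : ℕ} (μ : Alg n) : Prop :=
  ∃ θ : Alg n, ∀ t : ℂ, Leib (line μ θ t) ∧ (t ≠ 0 → ¬ Nilp (line μ θ t))

/-- the data of the criterion: a derivation `D`, a linear map `c` with `c(xy) = c(x)y - c(y)x` and
`x(Dy) = x(cy)`, commuting with `Dc = cD = cc`, and a common eigenfunctional `lam ≠ 0` of both which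
vanishes on all products, such that `D` is not nilpotent on the kernel of `lam` -/
structure Datum {n : ℕ} (μ : Alg n) (D c : Vec n →ₗ[ℂ] Vec n) (lam : Vec n →ₗ[ℂ] ℂ) (al : ℂ) :
    Prop where
  der : ∀ x y, D (mul μ x y) = mul μ (D x) y + mul μ x (D y)
  coc : ∀ x y, c (mul μ x y) = mul μ (c x) y - mul μ (c y) x
  lift : ∀ x y, mul μ x (D y) = mul μ x (c y)
  comm : ∀ x, D (c x) = c (c x) ∧ c (D x) = c (c x)
  lam_ne : lam ≠ 0
  lam_mul : ∀ x y, lam (mul μ x y) = 0
  lam_eigen : ∀ x, lam (D x) = al * lam x ∧ lam (c x) = al * lam x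
  not_nilp : ∀ m : ℕ, ∃ x, lam x = 0 ∧ (D ^ m) x ≠ 0

/-- the ideal `Leib(A)` spanned by the squares -/
def leibKer {n : ℕ} (μ : Alg n) : Submodule ℂ (Vec n) :=
  Submodule.span ℂ {v | ∃ x, v = mul μ x x}

/-- metric type: `Leib(A)` is one-dimensional and the symmetrised product `xy + yx` is
nondegenerate modulo `Leib(A)` -/
def IsMetric {n : ℕ} (μ : Alg n) : Prop :=
  Module.finrank ℂ (leibKer μ) = 1 ∧
    ∀ x : Vec n, (∀ y : Vec n, mul μ x y + mul μ y x = 0) → x ∈ leibKer μ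

theorem deforms_of_defo {n : ℕ} {μ : Alg n} (h : H3VG.Defo μ) : Deforms μ := by
  obtain ⟨θ, h1, h2⟩ := h
  exact ⟨θ, fun t => ⟨h1 t, h2 t⟩⟩

theorem metric_aux {n : ℕ} {μ : Alg n} (h : IsMetric μ) : ∃ z, H60VM.Met μ z := by
  obtain ⟨h1, h2⟩ := h
  obtain ⟨⟨z, hz⟩, hz0, hz1⟩ := finrank_eq_one_iff'.mp h1
  have hsp : ∀ v ∈ leibKer μ, ∃ a : ℂ, v = a • z := by
    intro v hv
    obtain ⟨a, ha⟩ := hz1 ⟨v, hv⟩
    exact ⟨a, (congrArg Subtype.val ha).symm⟩
  have hsq : ∀ x, μ x x ∈ leibKer μ := fun x => Submodule.subset_span ⟨x, rfl⟩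
  refine ⟨z, fun h0 => hz0 (Subtype.ext h0), fun x y => ?_, fun x hx => ?_⟩
  · apply hsp
    have e : μ x y + μ y x = μ (x + y) (x + y) - μ x x - μ y y := by
      simp only [map_add, LinearMap.add_apply]; abel
    rw [e]
    exact (leibKer μ).sub_mem ((leibKer μ).sub_mem (hsq _) (hsq _)) (hsq _)
  · exact hsp x (h2 x hx)

/-- A nilpotent Leibniz product on `ℂ^n` which has a `Datum`, or which is of metric type (`n ≥ 2`), lies on a line of Leibniz
products which are not nilpotent away from it; so it is not rigid. -/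
theorem result (n : ℕ) (μ : Alg n) (hL : Leib μ) (hN : Nilp μ)
    (h : (∃ (D c : Vec n →ₗ[ℂ] Vec n) (lam : Vec n →ₗ[ℂ] ℂ) (al : ℂ), Datum μ D c lam al) ∨ (2 ≤ n ∧ IsMetric μ)) :
    Deforms μ ∧ ¬ Rigid μ := by
  rcases h with ⟨D, c, lam, al, H⟩ | ⟨hn, hM⟩
  · have key : H3VG.Defo μ := H60VM.defo_of_datum hL hN (D := D) (c := c) (lam := lam) (al := al)
      ⟨H.der, H.coc, H.lift, H.lam_mul, fun x => (H.lam_eigen x).1, fun x => (H.lam_eigen x).2,
        fun x => (H.comm x).1, fun x => (H.comm x).2⟩ H.lam_ne H.not_nilp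
    exact ⟨deforms_of_defo key, H3VG.not_rigid_of_defo hL hN key⟩
  · obtain ⟨z, hz⟩ := metric_aux hM
    have key : H3VG.Defo μ := hz.defo hn hL hN
    exact ⟨deforms_of_defo key, H3VG.not_rigid_of_defo hL hN key⟩

end Pool.Agent.Results.MP_dfe2cd_al.MetricType
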