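import Pool.Agent.H81.VGC.Fin

/-!
# For every `n ≥ 5` the variety `Leib_n` has an irreducible component consisting of nilpotent algebras

`algA n` is the algebra `A_n` with basis `e_1, …, e_n` and nonzero products `e_i e_i = e_{n-1}`
(`1 ≤ i ≤ n-2`) and, if `n ≥ 6`, `e_1 e_2 = e_3 e_4 = e_n`, if `n = 5`,
`e_1 e_2 = e_2 e_3 = e_3 e_2 = e_5`.  For `n ≥ 5` every irreducible component of `Leib_n`
through `A_n` consists of algebras with `(x y) z = x (y z) = 0`, and `A_n` is not in the Zariski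
closure of the set of all non-nilpotent Leibniz algebras.
-/

set_option autoImplicit false

namespace Pool.Agent.Results.MP_dfe2cd_al.NilpotentComponent

open Pool.Agent.H81.VGC

theorem result (n : ℕ) (hn : 5 ≤ n) :
    ∃ hA : algA n ∈ Leib n,
      (∃ C ∈ @irreducibleComponents (Leib n) (zarLeib n), (⟨algA n, hA⟩ : Leib n) ∈ C) ∧
      (∀ C ∈ @irreducibleComponents (Leib n) (zarLeib n), (⟨algA n, hA⟩ : Leib n) ∈ C →
        ∀ μ ∈ C, IsNil μ.1 ∧
          ∀ x y z : Fin n → ℂ, mul μ.1 (mul μ.1 x y) z = 0 ∧ mul μ.1 x (mul μ.1 y z) = 0) ∧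
      (⟨algA n, hA⟩ : Leib n) ∉ @closure (Leib n) (zarLeib n) {μ | ¬ IsNil μ.1} := by
  obtain ⟨hA, h1, h2, h3, h4⟩ := main n hn
  exact ⟨hA, h3, fun C hC hAC μ hμ => ⟨(h4 C hC hAC μ hμ).isNil, h4 C hC hAC μ hμ⟩, h2⟩

end Pool.Agent.Results.MP_dfe2cd_al.NilpotentComponent
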