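import Pool.Agent.H3.VG.Main

set_option autoImplicit false

/-!
# Nilpotent Leibniz algebras with a small algebra of right multiplications are not rigid
-/

namespace Pool.Agent.Results.MP_dfe2cd_al.SmallRightMult

/-- the space `ℂ^n` -/
abbrev Vec (n : ℕ) : Type := Fin n → ℂ

/-- bilinear products on `ℂ^n` -/
abbrev Alg (n : ℕ) : Type := Vec n →ₗ[ℂ] Vec n →ₗ[ℂ] Vec n

/-- the product `xy` of the algebra `μ` -/
def mul {n : ℕ} (μ : Alg n) (x y : Vec n) : Vec n := μ x y

/-- the Leibniz identity `(xy)z = (xz)y + x(yz)` -/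
def Leib {n : ℕ} (μ : Alg n) : Prop :=
  ∀ x y z : Vec n, mul μ (mul μ x y) z = mul μ (mul μ x z) y + mul μ x (mul μ y z)

/-- all left normed products of some fixed length vanish -/
def Nilp {n : ℕ} (μ : Alg n) : Prop :=
  ∃ m : ℕ, ∀ x y : ℕ → Vec n,
    y 0 = x 0 → (∀ i : ℕ, y (i + 1) = mul μ (y i) (x (i + 1))) → y m = 0

/-- isomorphism of products -/
def Iso {n : ℕ} (μ ν : Alg n) : Prop :=
  ∃ g : Vec n ≃ₗ[ℂ] Vec n, ∀ x y : Vec n, mul ν (g x) (g y) = g (mul μ x y)

/-- the structure constants of a product -/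
noncomputable def sc {n : ℕ} (ν : Alg n) : Fin n × Fin n × Fin n → ℂ :=
  fun t => mul ν (Pi.single t.1 1) (Pi.single t.2.1 1) t.2.2

/-- the orbit of `μ` is Zariski-open in the variety of Leibniz products: its complement is the
common zero set (in the variety) of a set `P` of polynomials in the structure constants -/
def Rigid {n : ℕ} (μ : Alg n) : Prop :=
  ∃ P : Set (MvPolynomial (Fin n × Fin n × Fin n) ℂ),
    ∀ ν : Alg n, Leib ν → (¬ Iso μ ν ↔ ∀ p ∈ P, MvPolynomial.eval (sc ν) p = 0)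

/-- the line `μ + tθ` of products -/
noncomputable def line {n : ℕ} (μ θ : Alg n) (t : ℂ) : Alg n := μ + t • θ

/-- there is a subspace of dimension `≥ n - 2` which is annihilated by all left
multiplications -/
def Small {n : ℕ} (μ : Alg n) : Prop :=
  ∃ N : Submodule ℂ (Vec n), n ≤ Module.finrank ℂ N + 2 ∧ ∀ z ∈ N, ∀ x, mul μ x z = 0

/-- Let `n ≥ 4` and let `μ` be a nilpotent right Leibniz product on `ℂ^n` whose right annihilator
`{z : μ(x,z) = 0 for all x}` has dimension `≥ n - 2` (equivalently, the Lie algebra of the right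
multiplications of `μ` has dimension `≤ 2`). Then there is a bilinear `θ` such that all `μ + tθ` are
Leibniz products and `μ + tθ` is not nilpotent for `t ≠ 0`; and `μ` is not rigid. -/
theorem result (n : ℕ) (hn : 4 ≤ n) (μ : Alg n) (hL : Leib μ) (hN : Nilp μ) (hS : Small μ) :
    (∃ θ : Alg n, ∀ t : ℂ, Leib (line μ θ t) ∧ (t ≠ 0 → ¬ Nilp (line μ θ t))) ∧ ¬ Rigid μ := by
  obtain ⟨N, hd, hz⟩ := hS
  have h1 : N ≤ H3VG.Rann μ := fun z hz' => hz z hz'
  have h2 : Module.finrank ℂ N ≤ Module.finrank ℂ (H3VG.Rann μ) := Submodule.finrank_mono h1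
  have key : H3VG.Defo μ := H3VG.defo_codim_two hn hL hN (hd.trans (Nat.add_le_add_right h2 2))
  refine ⟨?_, H3VG.not_rigid_of_defo hL hN key⟩
  obtain ⟨θ, h1, h2⟩ := key
  exact ⟨θ, fun t => ⟨h1 t, h2 t⟩⟩

end Pool.Agent.Results.MP_dfe2cd_al.SmallRightMult
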